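import Pool.Statements.S05316
import Pool.Agent.L0h85.SgEx

/-!
The counterexample is the right translation semigroup on the weighted space
`L²((0, ∞), (1 + x)^(-2) dx)`, written on the unweighted space as
`T(t) f (x) = (1 + x - t) / (1 + x) * f (x - t)` for `x ≥ t` and `0` for `x < t`.
-/

set_option autoImplicit false
open Pool Pool.MP_8a8b2f_an

namespace Pool.Agent.S05316

/-- The negation of the preceding statement: Take a strongly continuous contraction semigroup on a complex Hilbert space with generator A, and some m>0 with ‖(μ−A)x‖ ≥ m∣Re μ∣‖x‖ for all x in D(A) and Re μ<0. Then some m₁>0 gives ‖T(t)x‖ ≥ m₁‖x‖ for all t≥0 and all x. -/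
theorem result :
    ¬ (∀ (H : Type) [NormedAddCommGroup H] [InnerProductSpace ℂ H] [CompleteSpace H]
      (T : ℝ → H →L[ℂ] H),
      T 0 = ContinuousLinearMap.id ℂ H →
      (∀ s t : ℝ, 0 ≤ s → 0 ≤ t → T (s + t) = (T s).comp (T t)) →
      (∀ x : H, ContinuousOn (fun t : ℝ => T t x) (Set.Ici 0)) →
      (∀ t : ℝ, 0 ≤ t → ‖T t‖ ≤ 1) →
      ∀ m : ℝ, 0 < m →
      (∀ x y : H,
        Filter.Tendsto (fun h : ℝ => ((h : ℂ)⁻¹) • (T h x - x))
          (nhdsWithin 0 (Set.Ioi 0)) (nhds y) →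
        ∀ μ : ℂ, μ.re < 0 → m * |μ.re| * ‖x‖ ≤ ‖μ • x - y‖) →
      ∃ m₁ : ℝ, 0 < m₁ ∧ ∀ t : ℝ, 0 ≤ t → ∀ x : H, m₁ * ‖x‖ ≤ ‖T t x‖) := by
  intro hall
  obtain ⟨m₁, hm, h⟩ := hall L0h85.Sg.HH L0h85.Sg.TT (by ext1 x; exact L0h85.Sg.TT_zero x)
    L0h85.Sg.TT_add (fun x => (L0h85.Sg.TT_continuous x).continuousOn)
    (fun t _ => ContinuousLinearMap.opNorm_le_bound _ (by norm_num)
      (fun x => by rw [one_mul]; exact L0h85.Sg.TT_norm t x))
    (1 / 19) (by norm_num) (fun x y hxy μ hμ => L0h85.Sg.resolvent_bound x y hxy μ hμ)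
  have ht : 0 ≤ 2 / m₁ := by positivity
  have h1 := h (2 / m₁) ht ⟨L0h85.Sg.e01, L0h85.Sg.e01_mem⟩
  have h2 : ‖L0h85.Sg.TT (2 / m₁) ⟨L0h85.Sg.e01, L0h85.Sg.e01_mem⟩‖ ≤ 2 / (1 + 2 / m₁) :=
    L0h85.Sg.TE_e01 (2 / m₁) ht
  have h3 : ‖(⟨L0h85.Sg.e01, L0h85.Sg.e01_mem⟩ : L0h85.Sg.HH)‖ = 1 := L0h85.Sg.e01_norm
  rw [h3, mul_one] at h1
  have h4 : 2 / (1 + 2 / m₁) < m₁ := by
    rw [div_lt_iff₀ (by positivity)]
    have : m₁ * (1 + 2 / m₁) = m₁ + 2 := by field_simp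
    rw [this]; linarith
  linarith

end Pool.Agent.S05316
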