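import Pool.Statements.S05431
import Pool.Agent.L0h37.AN.BC
import Pool.Agent.L0h37.AN.NM
import Pool.Agent.L0h37.AN.TV
import Pool.Agent.L0h37.AN.CL
import Pool.Agent.L0h37.AN.FF
import Pool.Agent.L0h37.AN.RY
import Pool.Agent.L0h37.AN.PA
import Pool.Agent.L0h37.AN.SM
import Pool.Agent.L0h37.AN.LC
import Pool.Agent.L0h37.AN.GB
import Pool.Agent.L0h37.AN.F1
import Pool.Agent.L0h37.AN.F2
import Pool.Agent.L0h37.AN.FB
import Pool.Agent.L0h37.AN.KT
import Pool.Agent.L0h37.AN.EX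
import Pool.Agent.L0h37.AN.RP
import Pool.Agent.L0h37.AN.GR
import Pool.Agent.L0h37.AN.NR
import Pool.Agent.L0h37.AN.TT
import Pool.Agent.L0h37.AN.GT
import Pool.Agent.L0h37.AN.CN
import Pool.Agent.L0h37.AN.CF
import Pool.Agent.L0h37.AN.UB
import Pool.Agent.L0h37.AN.DE
import Pool.Agent.L0h37.AN.CO
import Pool.Agent.L0h37.AN.BG
import Pool.Agent.L0h37.AN.Fin

set_option autoImplicit false
open Pool Pool.MP_937c79_an

namespace Pool.Agent.S05431

/-- For every angle α strictly between 0 and π there is c<1 such that, for all n≥2, every Borel set in R^n with Hausdorff dimension above c·n has three distinct points x,y,z with angle xyz (vertex y) equal to α. -/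
theorem result :
    ∀ α : ℝ, 0 < α → α < Real.pi →
      ∃ c : ℝ, c < 1 ∧
        ∀ n : ℕ, 2 ≤ n →
          ∀ E : Set (EuclideanSpace ℝ (Fin n)), MeasurableSet E →
            ENNReal.ofReal (c * (n : ℝ)) < dimH E →
              ∃ x ∈ E, ∃ y ∈ E, ∃ z ∈ E,
                x ≠ y ∧ y ≠ z ∧ x ≠ z ∧ EuclideanGeometry.angle x y z = α := by
  have hFB := L0h37.AN.FB.main L0h37.AN.LC.main L0h37.AN.GB.main L0h37.AN.F1.main L0h37.AN.F2.main
  have hEX := L0h37.AN.EX.main hFB L0h37.AN.KT.main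
  have hRY := L0h37.AN.RY.main (L0h37.AN.FF.main L0h37.AN.TV.main L0h37.AN.CL.main)
  have hCO := L0h37.AN.CO.main L0h37.AN.TT.main (L0h37.AN.GT.main L0h37.AN.NR.main)
    L0h37.AN.CN.main L0h37.AN.GR.main L0h37.AN.CF.main L0h37.AN.UB.main L0h37.AN.DE.main
  exact L0h37.AN.Fin.main (L0h37.AN.NM.main L0h37.AN.BC.main)
    (L0h37.AN.SM.main hRY L0h37.AN.PA.main)
    (L0h37.AN.BG.main hCO L0h37.AN.RP.main hEX)

end Pool.Agent.S05431
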