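import Pool.Statements.S07891

set_option autoImplicit false
open Pool Pool.MP_2e1090_co

namespace Pool.Agent.S07891

/-!
# A ray of `Dr(3,9)` that is not a corank subdivision

The ray is given by the tropical point configuration `(0,0), (0,1), (0,2), (1,0), (1,1), (1,2)` in
the tropical plane. Every function which is affine on the cells of its subdivision is a multiple of
it modulo the lineality space; this is shown by using only the cells which contain a square.
For a corank vector `ρ` the values `ρ(012 - i + j)`, for fixed `i`, differ by at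
most one, so the cross differences of `ρ(012 - i + j)` are integers between `-2` and `2`; those of
the ray are `1` and `3` times the same number.
-/

/-- the values of the weight function: `2` bits for each bit mask -/
def T : ℕ := 0x100000000000000010000000100010118000000000000000000000000000001040000000100000028000000180004048000000000000000000000000000000104000000010000001400000014000404400000000000000000000000000000040000000014000000800000004000000000

/-- weight of a bit mask -/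
def W (m : ℕ) : ℕ := (T >>> (2 * m)) % 4

/-- bit mask of a set -/
def mk (B : Finset (Fin 9)) : ℕ := ∑ i ∈ B, 2 ^ (i : ℕ)

/-- the weight function -/
noncomputable def w (B : Finset (Fin 9)) : ℝ := (W (mk B) : ℝ)

/-- bit mask of a triple -/
def m3 (x y z : Fin 9) : ℕ := 2 ^ (x : ℕ) + 2 ^ (y : ℕ) + 2 ^ (z : ℕ)

/-- weight of a triple -/
def W3 (x y z : Fin 9) : ℕ := W (m3 x y z)

lemma w3 (x y z : Fin 9) (h1 : x ≠ y) (h2 : x ≠ z) (h3 : y ≠ z) :
    w {x, y, z} = (W3 x y z : ℝ) := by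
  unfold w W3 mk m3
  rw [Finset.sum_insert (by simp [h1, h2]), Finset.sum_insert (by simp [h3]), Finset.sum_singleton,
    add_assoc]

lemma s3 (c : Fin 9 → ℝ) (x y z : Fin 9) (h1 : x ≠ y) (h2 : x ≠ z) (h3 : y ≠ z) :
    ∑ i ∈ {x, y, z}, c i = c x + c y + c z := by
  rw [Finset.sum_insert (by simp [h1, h2]), Finset.sum_insert (by simp [h3]), Finset.sum_singleton,
    add_assoc]

/-- the three term condition for three numbers -/
def P3 (a b c : ℕ) : Prop := (a = b ∧ a ≤ c) ∨ (a = c ∧ a ≤ b) ∨ (b = c ∧ b ≤ a)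

instance (a b c : ℕ) : Decidable (P3 a b c) := by unfold P3; infer_instance

/-- distinct labels -/
def ne5 (s i j k l : Fin 9) : Bool :=
  i != s && j != s && k != s && l != s && i != j && i != k && i != l && j != k && j != l && k != l

lemma plu_aux : ∀ s i j k l : Fin 9,
    (!(ne5 s i j k l) || decide (P3 (W3 i j s + W3 k l s) (W3 i k s + W3 j l s)
      (W3 i l s + W3 j k s))) = true := by
  decide +kernel

lemma plu (s i j k l : Fin 9) (his : i ≠ s) (hjs : j ≠ s) (hks : k ≠ s) (hls : l ≠ s)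
    (hij : i ≠ j) (hik : i ≠ k) (hil : i ≠ l) (hjk : j ≠ k) (hjl : j ≠ l) (hkl : k ≠ l) :
    P3 (W3 i j s + W3 k l s) (W3 i k s + W3 j l s) (W3 i l s + W3 j k s) := by
  have h := plu_aux s i j k l
  have h2 : ne5 s i j k l = true := by simp [ne5, *]
  rw [h2] at h
  simpa using h

/-! ### Squares -/

/-- twice the linear form showing that the square `ij, kl, ik, jl` is contained in a cell -/
def cc (s i j k l x : Fin 9) : ℤ :=
  if x = s then 100
  else if x = i then (W3 s i l : ℤ) - W3 s j l + W3 s i j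
  else if x = j then 2 * W3 s i j - ((W3 s i l : ℤ) - W3 s j l + W3 s i j)
  else if x = k then 2 * W3 s i k - ((W3 s i l : ℤ) - W3 s j l + W3 s i j)
  else if x = l then 2 * W3 s j l - 2 * W3 s i j + ((W3 s i l : ℤ) - W3 s j l + W3 s i j)
  else -100

/-- twice the value of the shifted weight at a triple -/
def val (c : Fin 9 → ℤ) (x y z : Fin 9) : ℤ := 2 * W3 x y z - (c x + c y + c z)

/-- the square is in a cell -/
def chk (s i j k l : Fin 9) : Bool :=
  ne5 s i j k l && decide (val (cc s i j k l) s i j = -100) &&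
    decide (val (cc s i j k l) s k l = -100) && decide (val (cc s i j k l) s i k = -100) &&
    decide (val (cc s i j k l) s j l = -100) &&
    decide (∀ x y z : Fin 9, x < y → y < z → -100 ≤ val (cc s i j k l) x y z)

lemma sorted {B : Finset (Fin 9)} (hB : B.card = 3) :
    ∃ x y z : Fin 9, x < y ∧ y < z ∧ B = {x, y, z} := by
  obtain ⟨x, y, z, h1, h2, h3, rfl⟩ := Finset.card_eq_three.mp hB
  rcases lt_or_gt_of_ne h1 with h1 | h1 <;> rcases lt_or_gt_of_ne h2 with h2 | h2 <;>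
    rcases lt_or_gt_of_ne h3 with h3 | h3
  · exact ⟨x, y, z, h1, h3, rfl⟩
  · exact ⟨x, z, y, h2, h3, by ext a; simp; tauto⟩
  · exact absurd (h1.trans h3) (lt_asymm h2)
  · exact ⟨z, x, y, h2, h1, by ext a; simp; tauto⟩
  · exact ⟨y, x, z, h1, h2, by ext a; simp; tauto⟩
  · exact absurd (h1.trans h2) (lt_asymm h3)
  · exact ⟨y, z, x, h3, h2, by ext a; simp; tauto⟩
  · exact ⟨z, y, x, h3, h1, by ext a; simp; tauto⟩

/-- the cell of `v` given by `c` -/
def Cell (v : Finset (Fin 9) → ℝ) (c : Fin 9 → ℝ) : Set (Finset (Fin 9)) :=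
  {B : Finset (Fin 9) | B.card = 3 ∧ ∀ B' : Finset (Fin 9), B'.card = 3 →
    v B - ∑ i ∈ B, c i ≤ v B' - ∑ i ∈ B', c i}

lemma card3 {x y z : Fin 9} (h1 : x ≠ y) (h2 : x ≠ z) (h3 : y ≠ z) :
    ({x, y, z} : Finset (Fin 9)).card = 3 := Finset.card_eq_three.mpr ⟨x, y, z, h1, h2, h3, rfl⟩

lemma mem_cell {c : Fin 9 → ℤ} (hc : ∀ x y z : Fin 9, x < y → y < z → -100 ≤ val c x y z)
    {x y z : Fin 9} (h1 : x ≠ y) (h2 : x ≠ z) (h3 : y ≠ z) (hv : val c x y z = -100) :
    ({x, y, z} : Finset (Fin 9)) ∈ Cell w (fun i => (c i : ℝ) / 2) := by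
  refine ⟨card3 h1 h2 h3, fun B' hB' => ?_⟩
  obtain ⟨a, b, d, h4, h5, rfl⟩ := sorted hB'
  have h6 := h4.trans h5
  rw [s3 _ _ _ _ h1 h2 h3, s3 _ _ _ _ h4.ne h6.ne h5.ne, w3 _ _ _ h1 h2 h3,
    w3 _ _ _ h4.ne h6.ne h5.ne]
  have h7 := hc a b d h4 h5
  rw [← hv] at h7
  unfold val at h7
  have h8 : (2 * (W3 x y z : ℝ) - (c x + c y + c z)) ≤ 2 * (W3 a b d : ℝ) - (c a + c b + c d) := by
    exact_mod_cast h7
  linarith

lemma square {v : Finset (Fin 9) → ℝ}
    (h : ∀ c : Fin 9 → ℝ, ∃ c' : Fin 9 → ℝ, Cell w c ⊆ Cell v c')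
    {s i j k l : Fin 9} (hk : chk s i j k l = true) :
    v {s, i, j} + v {s, k, l} = v {s, i, k} + v {s, j, l} := by
  simp only [chk, ne5, Bool.and_eq_true, bne_iff_ne, decide_eq_true_eq] at hk
  obtain ⟨⟨⟨⟨⟨⟨⟨⟨⟨⟨⟨⟨⟨⟨his, hjs⟩, hks⟩, hls⟩, hij⟩, hik⟩, hil⟩, hjk⟩, hjl⟩, hkl⟩, e1⟩, e2⟩, e3⟩, e4⟩,
    hc⟩ := hk
  obtain ⟨c', hc'⟩ := h (fun i' => (cc s i j k l i' : ℝ) / 2)
  have m1 := hc' (mem_cell hc his.symm hjs.symm hij e1)
  have m2 := hc' (mem_cell hc hks.symm hls.symm hkl e2)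
  have m3 := hc' (mem_cell hc his.symm hks.symm hik e3)
  have m4 := hc' (mem_cell hc hjs.symm hls.symm hjl e4)
  have a1 := m1.2 _ m2.1
  have a2 := m2.2 _ m3.1
  have a3 := m3.2 _ m4.1
  have a4 := m4.2 _ m1.1
  rw [s3 _ _ _ _ his.symm hjs.symm hij, s3 _ _ _ _ hks.symm hls.symm hkl] at a1
  rw [s3 _ _ _ _ hks.symm hls.symm hkl, s3 _ _ _ _ his.symm hks.symm hik] at a2
  rw [s3 _ _ _ _ his.symm hks.symm hik, s3 _ _ _ _ hjs.symm hls.symm hjl] at a3
  rw [s3 _ _ _ _ hjs.symm hls.symm hjl, s3 _ _ _ _ his.symm hjs.symm hij] at a4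
  linarith

/-! ### Propagation -/

/-- the set of a bit mask -/
def F (m : ℕ) : Finset (Fin 9) := Finset.univ.filter (fun i => m.testBit i = true)

lemma FT : ∀ x y z : Fin 9, (x == y || x == z || y == z || decide (F (m3 x y z) = {x, y, z})) = true := by
  decide +kernel

lemma F_m3 {x y z : Fin 9} (h1 : x ≠ y) (h2 : x ≠ z) (h3 : y ≠ z) :
    F (m3 x y z) = {x, y, z} := by
  have h := FT x y z
  simpa [h1, h2, h3] using h

/-- one step -/
def step (known : List ℕ) (t : Fin 9 × Fin 9 × Fin 9 × Fin 9 × Fin 9) : List ℕ :=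
  if chk t.1 t.2.1 t.2.2.1 t.2.2.2.1 t.2.2.2.2 && known.contains (m3 t.1 t.2.1 t.2.2.1) &&
    known.contains (m3 t.1 t.2.2.2.1 t.2.2.2.2) && known.contains (m3 t.1 t.2.1 t.2.2.2.1)
  then m3 t.1 t.2.2.1 t.2.2.2.2 :: known else known

lemma run_good {u : Finset (Fin 9) → ℝ}
    (hu : ∀ s i j k l : Fin 9, chk s i j k l = true →
      u {s, i, j} + u {s, k, l} = u {s, i, k} + u {s, j, l})
    (steps : List (Fin 9 × Fin 9 × Fin 9 × Fin 9 × Fin 9)) :
    ∀ known : List ℕ, (∀ m ∈ known, u (F m) = 0) →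
      ∀ m ∈ steps.foldl step known, u (F m) = 0 := by
  induction steps with
  | nil => intro known h; exact h
  | cons t ts ih =>
    intro known h
    rw [List.foldl_cons]
    refine ih _ ?_
    unfold step
    split_ifs with hc
    · intro m hm
      rw [List.mem_cons] at hm
      rcases hm with rfl | hm
      · simp only [Bool.and_eq_true, List.contains_iff_mem] at hc
        obtain ⟨⟨⟨c1, c2⟩, c3⟩, c4⟩ := hc
        obtain ⟨s, i, j, k, l⟩ := t
        have e := hu _ _ _ _ _ c1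
        have hk := c1
        simp only [chk, ne5, Bool.and_eq_true, bne_iff_ne, decide_eq_true_eq] at hk
        obtain ⟨⟨⟨⟨⟨⟨⟨⟨⟨⟨⟨⟨⟨⟨his, hjs⟩, hks⟩, hls⟩, hij⟩, hik⟩, hil⟩, hjk⟩, hjl⟩, hkl⟩, e1⟩, e2⟩, e3⟩,
          e4⟩, hc⟩ := hk
        have f1 := h _ c2
        have f2 := h _ c3
        have f3 := h _ c4
        simp only at f1 f2 f3 e ⊢
        rw [F_m3 his.symm hjs.symm hij] at f1
        rw [F_m3 hks.symm hls.symm hkl] at f2
        rw [F_m3 his.symm hks.symm hik] at f3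
        rw [F_m3 hjs.symm hls.symm hjl]
        linarith
      · exact h m hm
    · exact h

/-- the steps -/
def steps : List (Fin 9 × Fin 9 × Fin 9 × Fin 9 × Fin 9) :=
  [(0, 1, 3, 2, 4), (0, 1, 6, 2, 3), (0, 1, 7, 2, 3), (0, 1, 7, 3, 2), (0, 1, 6, 2, 4),
   (0, 1, 7, 2, 4), (0, 1, 8, 2, 4), (0, 1, 8, 4, 2), (0, 1, 6, 2, 7), (0, 1, 6, 2, 8),
   (0, 1, 7, 2, 8), (0, 1, 3, 4, 8), (1, 0, 6, 2, 3), (1, 0, 6, 3, 2), (2, 0, 4, 1, 3),
   (2, 0, 4, 3, 1), (2, 0, 3, 1, 6), (2, 0, 4, 1, 6), (2, 0, 7, 1, 6), (2, 0, 8, 1, 6),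
   (3, 0, 1, 2, 4), (3, 0, 4, 1, 6), (4, 0, 6, 2, 1), (4, 0, 7, 1, 2), (4, 0, 7, 2, 1),
   (4, 0, 3, 1, 7), (4, 0, 6, 1, 7), (6, 0, 1, 4, 7), (6, 0, 8, 1, 7), (6, 0, 8, 7, 1),
   (6, 4, 0, 7, 2), (6, 0, 4, 2, 8), (6, 0, 3, 4, 7), (6, 0, 3, 4, 8), (7, 0, 1, 4, 2),
   (7, 0, 8, 1, 2), (7, 0, 8, 2, 1), (7, 0, 1, 4, 3), (7, 0, 3, 1, 8), (7, 0, 4, 1, 8),
   (7, 0, 2, 4, 3), (8, 0, 2, 6, 1), (8, 0, 3, 6, 1), (8, 0, 1, 6, 4), (8, 0, 2, 6, 3),
   (8, 0, 2, 6, 4), (8, 0, 3, 6, 4), (1, 0, 5, 2, 8), (1, 0, 2, 8, 5), (1, 0, 3, 8, 5),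
   (1, 0, 4, 8, 5), (1, 0, 5, 8, 6), (1, 0, 5, 8, 7), (2, 0, 3, 1, 5), (2, 1, 0, 3, 5),
   (2, 0, 4, 1, 5), (2, 0, 5, 1, 6), (2, 0, 5, 1, 7), (2, 0, 5, 1, 8), (3, 1, 0, 2, 5),
   (3, 0, 4, 1, 5), (3, 0, 5, 1, 6), (3, 0, 5, 1, 7), (3, 0, 5, 1, 8), (4, 1, 0, 2, 5),
   (4, 0, 5, 1, 6), (4, 0, 5, 1, 7), (4, 0, 5, 1, 8), (5, 1, 6, 2, 0), (5, 1, 7, 2, 0),
   (5, 1, 0, 2, 8), (5, 0, 6, 1, 8), (5, 0, 7, 1, 8), (5, 0, 6, 2, 7)]

/-- the bit masks of the ten bases at the beginning -/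
def start : List ℕ := [7, 11, 19, 35, 67, 131, 259, 13, 14, 21]

lemma run_all : ∀ x y z : Fin 9, x < y → y < z → m3 x y z ∈ steps.foldl step start := by
  decide +kernel

/-- the linear form which agrees with `v` at nine bases -/
noncomputable def A (v : Finset (Fin 9) → ℝ) (i : Fin 9) : ℝ :=
  if i = 0 then (v {0, 1, 2} + v {0, 2, 3} + v {1, 2, 3} - 2 * v {0, 1, 3}) / 3
    - (v {1, 2, 3} - v {0, 1, 3})
  else if i = 1 then (v {0, 1, 2} + v {0, 2, 3} + v {1, 2, 3} - 2 * v {0, 1, 3}) / 3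
    - (v {0, 2, 3} - v {0, 1, 3})
  else if i = 2 then (v {0, 1, 2} + v {0, 2, 3} + v {1, 2, 3} - 2 * v {0, 1, 3}) / 3
  else (v {0, 1, 2} + v {0, 2, 3} + v {1, 2, 3} - 2 * v {0, 1, 3}) / 3
    + v {0, 1, i} - v {0, 1, 2}

lemma A_start (v : Finset (Fin 9) → ℝ) : ∀ m ∈ [7, 11, 19, 35, 67, 131, 259, 13, 14],
    v (F m) = ∑ i ∈ F m, A v i := by
  have f1 : F 7 = {0, 1, 2} := by decide
  have f2 : F 11 = {0, 1, 3} := by decide
  have f3 : F 19 = {0, 1, 4} := by decide
  have f4 : F 35 = {0, 1, 5} := by decide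
  have f5 : F 67 = {0, 1, 6} := by decide
  have f6 : F 131 = {0, 1, 7} := by decide
  have f7 : F 259 = {0, 1, 8} := by decide
  have f8 : F 13 = {0, 2, 3} := by decide
  have f9 : F 14 = {1, 2, 3} := by decide
  intro m hm
  simp only [List.mem_cons, List.not_mem_nil, or_false] at hm
  rcases hm with rfl | rfl | rfl | rfl | rfl | rfl | rfl | rfl | rfl
  · rw [f1, s3 _ _ _ _ (by decide) (by decide) (by decide)]
    simp only [A, if_true, show (1 : Fin 9) ≠ 0 by decide, show (2 : Fin 9) ≠ 0 by decide,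
      show (2 : Fin 9) ≠ 1 by decide, if_false]
    ring
  · rw [f2, s3 _ _ _ _ (by decide) (by decide) (by decide)]
    simp only [A, if_true, show (1 : Fin 9) ≠ 0 by decide, show (3 : Fin 9) ≠ 0 by decide,
      show (3 : Fin 9) ≠ 1 by decide, show (3 : Fin 9) ≠ 2 by decide, if_false]
    ring
  · rw [f3, s3 _ _ _ _ (by decide) (by decide) (by decide)]
    simp only [A, if_true, show (1 : Fin 9) ≠ 0 by decide, show (4 : Fin 9) ≠ 0 by decide,
      show (4 : Fin 9) ≠ 1 by decide, show (4 : Fin 9) ≠ 2 by decide, if_false]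
    ring
  · rw [f4, s3 _ _ _ _ (by decide) (by decide) (by decide)]
    simp only [A, if_true, show (1 : Fin 9) ≠ 0 by decide, show (5 : Fin 9) ≠ 0 by decide,
      show (5 : Fin 9) ≠ 1 by decide, show (5 : Fin 9) ≠ 2 by decide, if_false]
    ring
  · rw [f5, s3 _ _ _ _ (by decide) (by decide) (by decide)]
    simp only [A, if_true, show (1 : Fin 9) ≠ 0 by decide, show (6 : Fin 9) ≠ 0 by decide,
      show (6 : Fin 9) ≠ 1 by decide, show (6 : Fin 9) ≠ 2 by decide, if_false]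
    ring
  · rw [f6, s3 _ _ _ _ (by decide) (by decide) (by decide)]
    simp only [A, if_true, show (1 : Fin 9) ≠ 0 by decide, show (7 : Fin 9) ≠ 0 by decide,
      show (7 : Fin 9) ≠ 1 by decide, show (7 : Fin 9) ≠ 2 by decide, if_false]
    ring
  · rw [f7, s3 _ _ _ _ (by decide) (by decide) (by decide)]
    simp only [A, if_true, show (1 : Fin 9) ≠ 0 by decide, show (8 : Fin 9) ≠ 0 by decide,
      show (8 : Fin 9) ≠ 1 by decide, show (8 : Fin 9) ≠ 2 by decide, if_false]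
    ring
  · rw [f8, s3 _ _ _ _ (by decide) (by decide) (by decide)]
    simp only [A, if_true, show (2 : Fin 9) ≠ 0 by decide, show (3 : Fin 9) ≠ 0 by decide,
      show (2 : Fin 9) ≠ 1 by decide, show (3 : Fin 9) ≠ 1 by decide,
      show (3 : Fin 9) ≠ 2 by decide, if_false]
    ring
  · rw [f9, s3 _ _ _ _ (by decide) (by decide) (by decide)]
    simp only [A, if_true, show (1 : Fin 9) ≠ 0 by decide, show (2 : Fin 9) ≠ 0 by decide,
      show (3 : Fin 9) ≠ 0 by decide,
      show (2 : Fin 9) ≠ 1 by decide, show (3 : Fin 9) ≠ 1 by decide,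
      show (3 : Fin 9) ≠ 2 by decide, if_false]
    ring

lemma wv (x y z : Fin 9) (n : ℕ) (h1 : x ≠ y) (h2 : x ≠ z) (h3 : y ≠ z) (h : W3 x y z = n) :
    w {x, y, z} = (n : ℝ) := by
  rw [w3 x y z h1 h2 h3, h]

/-- a function which is affine on the cells of `w` is a multiple of `w` modulo linear forms -/
theorem span {v : Finset (Fin 9) → ℝ}
    (h : ∀ c : Fin 9 → ℝ, ∃ c' : Fin 9 → ℝ, Cell w c ⊆ Cell v c') :
    ∃ (lam : ℝ) (a : Fin 9 → ℝ), ∀ B : Finset (Fin 9), B.card = 3 →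
      v B = lam * w B + ∑ i ∈ B, a i := by
  obtain ⟨lam, hlam⟩ : ∃ lam : ℝ, lam = -(v {0, 2, 4} - ∑ i ∈ {0, 2, 4}, A v i) := ⟨_, rfl⟩
  let u : Finset (Fin 9) → ℝ := fun B =>
    (v B - ∑ i ∈ B, A v i) - lam * (w B - ∑ i ∈ B, A w i)
  have hu : ∀ s i j k l : Fin 9, chk s i j k l = true →
      u {s, i, j} + u {s, k, l} = u {s, i, k} + u {s, j, l} := by
    intro s i j k l hk
    have e1 := square h hk
    have e2 := square (v := w) (fun c => ⟨c, subset_rfl⟩) hk
    simp only [chk, ne5, Bool.and_eq_true, bne_iff_ne, decide_eq_true_eq] at hk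
    obtain ⟨⟨⟨⟨⟨⟨⟨⟨⟨⟨⟨⟨⟨⟨his, hjs⟩, hks⟩, hls⟩, hij⟩, hik⟩, hil⟩, hjk⟩, hjl⟩, hkl⟩, -⟩, -⟩, -⟩,
      -⟩, -⟩ := hk
    simp only [u]
    rw [s3 _ _ _ _ his.symm hjs.symm hij, s3 _ _ _ _ his.symm hjs.symm hij,
      s3 _ _ _ _ hks.symm hls.symm hkl, s3 _ _ _ _ hks.symm hls.symm hkl,
      s3 _ _ _ _ his.symm hks.symm hik, s3 _ _ _ _ his.symm hks.symm hik,
      s3 _ _ _ _ hjs.symm hls.symm hjl, s3 _ _ _ _ hjs.symm hls.symm hjl]
    linear_combination e1 - lam * e2
  have hstart : ∀ m ∈ start, u (F m) = 0 := by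
    have g : ∀ m ∈ [7, 11, 19, 35, 67, 131, 259, 13, 14], u (F m) = 0 := by
      intro m hm
      simp only [u]
      rw [← A_start v m hm, ← A_start w m hm]
      ring
    have g2 : u (F 21) = 0 := by
      have f : F 21 = {0, 2, 4} := by decide
      have hw : w {0, 2, 4} - ∑ i ∈ {0, 2, 4}, A w i = -1 := by
        rw [s3 _ _ _ _ (by decide) (by decide) (by decide)]
        simp only [A, if_true, show (2 : Fin 9) ≠ 0 by decide, show (4 : Fin 9) ≠ 0 by decide,
          show (2 : Fin 9) ≠ 1 by decide, show (4 : Fin 9) ≠ 1 by decide,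
          show (4 : Fin 9) ≠ 2 by decide, if_false]
        rw [wv 0 2 4 0 (by decide) (by decide) (by decide) (by decide +kernel),
          wv 0 1 2 0 (by decide) (by decide) (by decide) (by decide +kernel),
          wv 0 2 3 0 (by decide) (by decide) (by decide) (by decide +kernel),
          wv 1 2 3 0 (by decide) (by decide) (by decide) (by decide +kernel),
          wv 0 1 3 0 (by decide) (by decide) (by decide) (by decide +kernel),
          wv 0 1 4 1 (by decide) (by decide) (by decide) (by decide +kernel)]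
        norm_num
      simp only [u, f]
      rw [hw, hlam]
      ring
    intro m hm
    simp only [start, List.mem_cons, List.not_mem_nil, or_false] at hm
    rcases hm with rfl | rfl | rfl | rfl | rfl | rfl | rfl | rfl | rfl | rfl
    all_goals first | exact g2 | exact g _ (by simp)
  have hall := run_good hu steps start hstart
  refine ⟨lam, fun i => A v i - lam * A w i, fun B hB => ?_⟩
  obtain ⟨x, y, z, h1, h2, rfl⟩ := sorted hB
  have h3 := h1.trans h2
  have e := hall _ (run_all x y z h1 h2)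
  rw [F_m3 h1.ne h3.ne h2.ne] at e
  simp only [u] at e
  rw [s3 _ _ _ _ h1.ne h3.ne h2.ne, s3 _ _ _ _ h1.ne h3.ne h2.ne] at e
  rw [s3 _ _ _ _ h1.ne h3.ne h2.ne]
  linear_combination e

/-! ### The theorem -/

lemma nontriv : ¬ ∃ c : Fin 9 → ℝ, ∀ B : Finset (Fin 9), B.card = 3 →
    ∀ B' : Finset (Fin 9), B'.card = 3 → w B - ∑ i ∈ B, c i ≤ w B' - ∑ i ∈ B', c i := by
  rintro ⟨c, hc⟩
  have n01 : (0 : Fin 9) ≠ 1 := by decide
  have n02 : (0 : Fin 9) ≠ 2 := by decide
  have n03 : (0 : Fin 9) ≠ 3 := by decide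
  have n04 : (0 : Fin 9) ≠ 4 := by decide
  have n12 : (1 : Fin 9) ≠ 2 := by decide
  have n14 : (1 : Fin 9) ≠ 4 := by decide
  have n23 : (2 : Fin 9) ≠ 3 := by decide
  have n34 : (3 : Fin 9) ≠ 4 := by decide
  have e1 := hc {0, 1, 4} (card3 n01 n04 n14) {0, 1, 2} (card3 n01 n02 n12)
  have e2 := hc {0, 2, 3} (card3 n02 n03 n23) {0, 3, 4} (card3 n03 n04 n34)
  rw [s3 _ _ _ _ n01 n04 n14, s3 _ _ _ _ n01 n02 n12,
    wv 0 1 4 1 (by decide) (by decide) (by decide) (by decide +kernel),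
    wv 0 1 2 0 (by decide) (by decide) (by decide) (by decide +kernel)] at e1
  rw [s3 _ _ _ _ n02 n03 n23, s3 _ _ _ _ n03 n04 n34,
    wv 0 2 3 0 (by decide) (by decide) (by decide) (by decide +kernel),
    wv 0 3 4 0 (by decide) (by decide) (by decide) (by decide +kernel)] at e2
  norm_num at e1 e2
  linarith

lemma cell_eq {v : Finset (Fin 9) → ℝ} {lam : ℝ} (hl : 0 < lam) {a : Fin 9 → ℝ}
    (hv : ∀ B : Finset (Fin 9), B.card = 3 → v B = lam * w B + ∑ i ∈ B, a i) (c : Fin 9 → ℝ) :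
    Cell w c = Cell v (fun i => lam * c i + a i) := by
  have key : ∀ B : Finset (Fin 9), B.card = 3 →
      v B - ∑ i ∈ B, (lam * c i + a i) = lam * (w B - ∑ i ∈ B, c i) := by
    intro B hB
    rw [hv B hB, Finset.sum_add_distrib, ← Finset.mul_sum]
    ring
  ext B
  constructor
  · rintro ⟨h1, h2⟩
    refine ⟨h1, fun B' hB' => ?_⟩
    rw [key B h1, key B' hB']
    exact mul_le_mul_of_nonneg_left (h2 B' hB') hl.le
  · rintro ⟨h1, h2⟩
    refine ⟨h1, fun B' hB' => ?_⟩
    have h3 := h2 B' hB'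
    rw [key B h1, key B' hB'] at h3
    exact le_of_mul_le_mul_left h3 hl

/-- Some Dressian Dr(d,n) has a tropical Plücker vector inducing a coarsest nontrivial matroid subdivision (a ray) that differs from the subdivision induced by the corank vector of every rank-d matroid on n elements. -/
theorem result :
    ∃ d n : ℕ, ∃ w : Finset (Fin n) → ℝ,
      (∀ (S : Finset (Fin n)) (i j k l : Fin n), S.card + 2 = d →
        i ∉ S → j ∉ S → k ∉ S → l ∉ S →
        i ≠ j → i ≠ k → i ≠ l → j ≠ k → j ≠ l → k ≠ l →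
        ((w (insert i (insert j S)) + w (insert k (insert l S))
            = w (insert i (insert k S)) + w (insert j (insert l S)) ∧
          w (insert i (insert j S)) + w (insert k (insert l S))
            ≤ w (insert i (insert l S)) + w (insert j (insert k S))) ∨
         (w (insert i (insert j S)) + w (insert k (insert l S))
            = w (insert i (insert l S)) + w (insert j (insert k S)) ∧
          w (insert i (insert j S)) + w (insert k (insert l S))
            ≤ w (insert i (insert k S)) + w (insert j (insert l S))) ∨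
         (w (insert i (insert k S)) + w (insert j (insert l S))
            = w (insert i (insert l S)) + w (insert j (insert k S)) ∧
          w (insert i (insert k S)) + w (insert j (insert l S))
            ≤ w (insert i (insert j S)) + w (insert k (insert l S))))) ∧
      (¬ ∃ c : Fin n → ℝ, ∀ B : Finset (Fin n), B.card = d →
          ∀ B' : Finset (Fin n), B'.card = d →
            w B - ∑ i ∈ B, c i ≤ w B' - ∑ i ∈ B', c i) ∧
      (∀ v : Finset (Fin n) → ℝ,
        (∀ (S : Finset (Fin n)) (i j k l : Fin n), S.card + 2 = d →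
          i ∉ S → j ∉ S → k ∉ S → l ∉ S →
          i ≠ j → i ≠ k → i ≠ l → j ≠ k → j ≠ l → k ≠ l →
          ((v (insert i (insert j S)) + v (insert k (insert l S))
              = v (insert i (insert k S)) + v (insert j (insert l S)) ∧
            v (insert i (insert j S)) + v (insert k (insert l S))
              ≤ v (insert i (insert l S)) + v (insert j (insert k S))) ∨
           (v (insert i (insert j S)) + v (insert k (insert l S))
              = v (insert i (insert l S)) + v (insert j (insert k S)) ∧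
            v (insert i (insert j S)) + v (insert k (insert l S))
              ≤ v (insert i (insert k S)) + v (insert j (insert l S))) ∨
           (v (insert i (insert k S)) + v (insert j (insert l S))
              = v (insert i (insert l S)) + v (insert j (insert k S)) ∧
            v (insert i (insert k S)) + v (insert j (insert l S))
              ≤ v (insert i (insert j S)) + v (insert k (insert l S))))) →
        (∀ c : Fin n → ℝ, ∃ c' : Fin n → ℝ,
          {B : Finset (Fin n) | B.card = d ∧ ∀ B' : Finset (Fin n), B'.card = d →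
              w B - ∑ i ∈ B, c i ≤ w B' - ∑ i ∈ B', c i} ⊆
          {B : Finset (Fin n) | B.card = d ∧ ∀ B' : Finset (Fin n), B'.card = d →
              v B - ∑ i ∈ B, c' i ≤ v B' - ∑ i ∈ B', c' i}) →
        (∃ c : Fin n → ℝ, ∀ B : Finset (Fin n), B.card = d →
          ∀ B' : Finset (Fin n), B'.card = d →
            v B - ∑ i ∈ B, c i ≤ v B' - ∑ i ∈ B', c i) ∨
        ((∀ c : Fin n → ℝ, ∃ c' : Fin n → ℝ,
          {B : Finset (Fin n) | B.card = d ∧ ∀ B' : Finset (Fin n), B'.card = d →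
              w B - ∑ i ∈ B, c i ≤ w B' - ∑ i ∈ B', c i} =
          {B : Finset (Fin n) | B.card = d ∧ ∀ B' : Finset (Fin n), B'.card = d →
              v B - ∑ i ∈ B, c' i ≤ v B' - ∑ i ∈ B', c' i}) ∧
         (∀ c : Fin n → ℝ, ∃ c' : Fin n → ℝ,
          {B : Finset (Fin n) | B.card = d ∧ ∀ B' : Finset (Fin n), B'.card = d →
              v B - ∑ i ∈ B, c i ≤ v B' - ∑ i ∈ B', c i} =
          {B : Finset (Fin n) | B.card = d ∧ ∀ B' : Finset (Fin n), B'.card = d →
              w B - ∑ i ∈ B, c' i ≤ w B' - ∑ i ∈ B', c' i}))) ∧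
      (¬ ∃ M : Matroid (Fin n), M.E = Set.univ ∧ M.eRank = (d : ℕ∞) ∧
        (∀ c : Fin n → ℝ, ∃ c' : Fin n → ℝ,
          {B : Finset (Fin n) | B.card = d ∧ ∀ B' : Finset (Fin n), B'.card = d →
              w B - ∑ i ∈ B, c i ≤ w B' - ∑ i ∈ B', c i} =
          {B : Finset (Fin n) | B.card = d ∧ ∀ B' : Finset (Fin n), B'.card = d →
              ((d : ℝ) - ((M.eRk (B : Set (Fin n))).toNat : ℝ)) - ∑ i ∈ B, c' i ≤
              ((d : ℝ) - ((M.eRk (B' : Set (Fin n))).toNat : ℝ)) - ∑ i ∈ B', c' i}) ∧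
        (∀ c : Fin n → ℝ, ∃ c' : Fin n → ℝ,
          {B : Finset (Fin n) | B.card = d ∧ ∀ B' : Finset (Fin n), B'.card = d →
              ((d : ℝ) - ((M.eRk (B : Set (Fin n))).toNat : ℝ)) - ∑ i ∈ B, c i ≤
              ((d : ℝ) - ((M.eRk (B' : Set (Fin n))).toNat : ℝ)) - ∑ i ∈ B', c i} =
          {B : Finset (Fin n) | B.card = d ∧ ∀ B' : Finset (Fin n), B'.card = d →
              w B - ∑ i ∈ B, c' i ≤ w B' - ∑ i ∈ B', c' i})) := by
  refine ⟨3, 9, w, ?_, nontriv, ?_, ?_⟩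
  · intro S i j k l hS hi hj hk hl hij hik hil hjk hjl hkl
    obtain ⟨s, rfl⟩ := Finset.card_eq_one.mp (by omega : S.card = 1)
    rw [Finset.mem_singleton] at hi hj hk hl
    have h := plu s i j k l hi hj hk hl hij hik hil hjk hjl hkl
    rw [w3 i j s hij hi hj, w3 k l s hkl hk hl, w3 i k s hik hi hk, w3 j l s hjl hj hl,
      w3 i l s hil hi hl, w3 j k s hjk hj hk]
    unfold P3 at h
    exact_mod_cast h
  · intro v hv hcell
    obtain ⟨lam, a, h⟩ := span (v := v) hcell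
    rcases lt_trichotomy lam 0 with hl | hl | hl
    · exfalso
      have n01 : (1 : Fin 9) ≠ 0 := by decide
      have n02 : (2 : Fin 9) ≠ 0 := by decide
      have n03 : (3 : Fin 9) ≠ 0 := by decide
      have n04 : (4 : Fin 9) ≠ 0 := by decide
      have n12 : (1 : Fin 9) ≠ 2 := by decide
      have n13 : (1 : Fin 9) ≠ 3 := by decide
      have n14 : (1 : Fin 9) ≠ 4 := by decide
      have n23 : (2 : Fin 9) ≠ 3 := by decide
      have n24 : (2 : Fin 9) ≠ 4 := by decide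
      have n34 : (3 : Fin 9) ≠ 4 := by decide
      have e := hv {0} 1 2 3 4 (by decide) (by decide) (by decide) (by decide) (by decide)
        n12 n13 n14 n23 n24 n34
      rw [h _ (card3 n12 n01 n02), h _ (card3 n34 n03 n04), h _ (card3 n13 n01 n03),
        h _ (card3 n24 n02 n04), h _ (card3 n14 n01 n04), h _ (card3 n23 n02 n03),
        s3 _ _ _ _ n12 n01 n02, s3 _ _ _ _ n34 n03 n04, s3 _ _ _ _ n13 n01 n03,
        s3 _ _ _ _ n24 n02 n04, s3 _ _ _ _ n14 n01 n04, s3 _ _ _ _ n23 n02 n03,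
        wv 1 2 0 0 n12 n01 n02 (by decide +kernel), wv 3 4 0 0 n34 n03 n04 (by decide +kernel),
        wv 1 3 0 0 n13 n01 n03 (by decide +kernel), wv 2 4 0 0 n24 n02 n04 (by decide +kernel),
        wv 1 4 0 1 n14 n01 n04 (by decide +kernel), wv 2 3 0 0 n23 n02 n03 (by decide +kernel)] at e
      norm_num at e
      rcases e with ⟨e1, e2⟩ | ⟨e1, e2⟩ | ⟨e1, e2⟩ <;> linarith
    · left
      refine ⟨a, fun B hB B' hB' => ?_⟩
      rw [h B hB, h B' hB', hl]
      simp
    · right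
      refine ⟨fun c => ⟨_, cell_eq hl h c⟩, fun c => ⟨fun i => (c i - a i) / lam, ?_⟩⟩
      have e := cell_eq hl h (fun i => (c i - a i) / lam)
      have e2 : (fun i => lam * ((c i - a i) / lam) + a i) = c := by
        funext i
        field_simp
        ring
      rw [e2] at e
      exact e.symm
  · rintro ⟨M, hE, hr, h1, h2⟩
    obtain ⟨lam, a, h⟩ := span
      (v := fun B => ((3 : ℕ) : ℝ) - ((M.eRk (B : Set (Fin 9))).toNat : ℝ))
      (fun c => by
        obtain ⟨c', hc'⟩ := h1 c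
        exact ⟨c', hc'.subset⟩)
    -- ranks
    have rk : ∀ (B C : Finset (Fin 9)) (x : Fin 9), C = insert x B →
        (M.eRk (B : Set (Fin 9))).toNat ≤ (M.eRk (C : Set (Fin 9))).toNat ∧
        (M.eRk (C : Set (Fin 9))).toNat ≤ (M.eRk (B : Set (Fin 9))).toNat + 1 := by
      intro B C x hC
      have hf : ∀ D : Finset (Fin 9), M.eRk (D : Set (Fin 9)) ≠ ⊤ := by
        intro D
        refine ne_top_of_le_ne_top ?_ (M.eRk_le_encard _)
        simp
      have i1 : M.eRk (B : Set (Fin 9)) ≤ M.eRk (C : Set (Fin 9)) := by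
        apply M.eRk_mono
        rw [hC]
        intro y hy
        simp [Finset.mem_coe.mp hy]
      have i2 : M.eRk (C : Set (Fin 9)) ≤ M.eRk (B : Set (Fin 9)) + 1 := by
        rw [hC, Finset.coe_insert]
        exact M.eRk_insert_le_add_one x _
      have f1 := hf B
      have f2 := hf C
      obtain ⟨p, hp⟩ := ENat.ne_top_iff_exists.mp f1
      obtain ⟨q, hq⟩ := ENat.ne_top_iff_exists.mp f2
      rw [← hp, ← hq] at i1 i2 ⊢
      simp only [ENat.toNat_natCast]
      constructor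
      · exact_mod_cast i1
      · exact_mod_cast i2
    have n02 : (0 : Fin 9) ≠ 2 := by decide
    have n01 : (0 : Fin 9) ≠ 1 := by decide
    have n03 : (0 : Fin 9) ≠ 3 := by decide
    have n05 : (0 : Fin 9) ≠ 5 := by decide
    have n06 : (0 : Fin 9) ≠ 6 := by decide
    have n26 : (2 : Fin 9) ≠ 6 := by decide
    have n25 : (2 : Fin 9) ≠ 5 := by decide
    have n23 : (2 : Fin 9) ≠ 3 := by decide
    have n16 : (1 : Fin 9) ≠ 6 := by decide
    have n15 : (1 : Fin 9) ≠ 5 := by decide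
    have n13 : (1 : Fin 9) ≠ 3 := by decide
    obtain ⟨r1, r1'⟩ := rk {0, 2} {0, 2, 6} 6 (by decide)
    obtain ⟨r2, r2'⟩ := rk {0, 2} {0, 2, 5} 5 (by decide)
    obtain ⟨r3, r3'⟩ := rk {0, 1} {0, 1, 6} 6 (by decide)
    obtain ⟨r4, r4'⟩ := rk {0, 1} {0, 1, 5} 5 (by decide)
    have e1 := h {0, 2, 6} (card3 n02 n06 n26)
    have e2 := h {0, 2, 5} (card3 n02 n05 n25)
    have e3 := h {0, 1, 6} (card3 n01 n06 n16)
    have e4 := h {0, 1, 5} (card3 n01 n05 n15)
    have e5 := h {0, 2, 3} (card3 n02 n03 n23)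
    have e6 := h {0, 1, 3} (card3 n01 n03 n13)
    rw [s3 _ _ _ _ n02 n06 n26, wv 0 2 6 1 n02 n06 n26 (by decide +kernel)] at e1
    rw [s3 _ _ _ _ n02 n05 n25, wv 0 2 5 0 n02 n05 n25 (by decide +kernel)] at e2
    rw [s3 _ _ _ _ n01 n06 n16, wv 0 1 6 0 n01 n06 n16 (by decide +kernel)] at e3
    rw [s3 _ _ _ _ n01 n05 n15, wv 0 1 5 2 n01 n05 n15 (by decide +kernel)] at e4
    rw [s3 _ _ _ _ n02 n03 n23, wv 0 2 3 0 n02 n03 n23 (by decide +kernel)] at e5
    rw [s3 _ _ _ _ n01 n03 n13, wv 0 1 3 0 n01 n03 n13 (by decide +kernel)] at e6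
    generalize (M.eRk (({0, 2, 6} : Finset (Fin 9)) : Set (Fin 9))).toNat = R1 at *
    generalize (M.eRk (({0, 2, 5} : Finset (Fin 9)) : Set (Fin 9))).toNat = R2 at *
    generalize (M.eRk (({0, 1, 6} : Finset (Fin 9)) : Set (Fin 9))).toNat = R3 at *
    generalize (M.eRk (({0, 1, 5} : Finset (Fin 9)) : Set (Fin 9))).toNat = R4 at *
    generalize (M.eRk (({0, 2, 3} : Finset (Fin 9)) : Set (Fin 9))).toNat = R5 at *
    generalize (M.eRk (({0, 1, 3} : Finset (Fin 9)) : Set (Fin 9))).toNat = R6 at *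
    have hl1 : lam = (((R5 : ℤ) - R1 + R3 - R6 : ℤ) : ℝ) := by
      push_cast
      push_cast at e1 e3 e5 e6
      linarith
    have hl2 : 3 * lam = (((R2 : ℤ) - R1 + R3 - R4 : ℤ) : ℝ) := by
      push_cast
      push_cast at e1 e2 e3 e4
      linarith
    have hl3 : lam = 0 := by
      have h3 : (3 * ((R5 : ℤ) - R1 + R3 - R6) : ℤ) = (R2 : ℤ) - R1 + R3 - R4 := by
        rw [hl1] at hl2
        exact_mod_cast hl2
      have h4 : ((R5 : ℤ) - R1 + R3 - R6) = 0 := by omega
      rw [hl1, h4]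
      simp
    obtain ⟨c', hc'⟩ := h2 a
    apply nontriv
    refine ⟨c', fun B hB => ?_⟩
    have hmem : B ∈ {B : Finset (Fin 9) | B.card = 3 ∧ ∀ B' : Finset (Fin 9), B'.card = 3 →
        (((3 : ℕ) : ℝ) - ((M.eRk (B : Set (Fin 9))).toNat : ℝ)) - ∑ i ∈ B, a i ≤
        (((3 : ℕ) : ℝ) - ((M.eRk (B' : Set (Fin 9))).toNat : ℝ)) - ∑ i ∈ B', a i} := by
      refine ⟨hB, fun B' hB' => ?_⟩
      have k1 := h B hB
      have k2 := h B' hB'
      rw [k1, k2, hl3]
      simp
    rw [hc'] at hmem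
    exact hmem.2

end Pool.Agent.S07891
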