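import Pool.Statements.S14311
import Pool.Agent.L0h82.VarSpace

set_option autoImplicit false
open Pool Pool.MP_008bf5_lc

namespace Pool.Agent.S14311

open Pool.Agent.H561R2.VS in
/-- The level closure is the iterate in the frozen statement. -/
theorem iter_eq {n : ℕ} (F : Finset (Finset (Fin n × Bool))) (k : ℕ) :
    (fun S : Set (Finset (Fin n × Bool)) =>
      S ∪ {c | ∃ a ∈ S, ∃ b ∈ S, ∃ x : Fin n, (x, true) ∈ a ∧ (x, false) ∈ b ∧
        c = a.erase (x, true) ∪ b.erase (x, false)})^[k] (F : Set (Finset (Fin n × Bool))) =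
      lev F k := by
  induction k with
  | zero => rfl
  | succ k ih => rw [Function.iterate_succ_apply', ih]; rfl

/-- variable space at most one -/
theorem one_var {n : ℕ} (F : Finset (Finset (Fin n × Bool))) (L : ℕ)
    (M : ℕ → Finset (Finset (Fin n × Bool))) (h0 : M 0 = ∅)
    (h1 : (∅ : Finset (Fin n × Bool)) ∈ M L)
    (hstep : ∀ i < L, Pool.Agent.H561R2.VS.Step F (M i) (M (i + 1)))
    (hs : ∀ i ≤ L, ((M i).biUnion (fun c => c.image Prod.fst)).card ≤ 1) :
    (∅ : Finset (Fin n × Bool)) ∈ Pool.Agent.H561R2.VS.lev F 1 := by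
  classical
  by_contra hcon
  have hE : (∅ : Finset (Fin n × Bool)) ∉ F := fun h => hcon (Or.inl h)
  have hP : ∀ x : Fin n, ({(x, true)} : Finset (Fin n × Bool)) ∈ F →
      ({(x, false)} : Finset (Fin n × Bool)) ∉ F := by
    intro x hx hx'
    refine hcon (Or.inr ⟨{(x, true)}, hx, {(x, false)}, hx', x, by simp, by simp, by simp⟩)
  let α : Fin n → Bool := fun x => decide (({(x, true)} : Finset (Fin n × Bool)) ∈ F)
  have hal : ∀ i ≤ L, ∀ C ∈ M i, Pool.Agent.H561R2.VS.Sat α C := by
    intro i
    induction i with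
    | zero => intro _ C hC; rw [h0] at hC; simp at hC
    | succ i ih =>
      intro hi
      by_contra hdead
      obtain ⟨C, hC, hCM, hCs⟩ := Pool.Agent.H561R2.VS.step_dead (hstep i (by omega))
        (ih (by omega)) hdead
      -- `C` is a clause over at most one variable
      have hv := hs (i + 1) hi
      rcases C.eq_empty_or_nonempty with rfl | ⟨l, hl⟩
      · exact hE hC
      · have hall : ∀ l' ∈ C, l'.1 = l.1 := by
          intro l' hl'
          refine Finset.card_le_one.1 hv _ ?_ _ ?_
          · exact Finset.mem_biUnion.2 ⟨C, hCM, Finset.mem_image_of_mem _ hl'⟩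
          · exact Finset.mem_biUnion.2 ⟨C, hCM, Finset.mem_image_of_mem _ hl⟩
        have hne : α l.1 ≠ l.2 := fun h => hCs ⟨l, hl, h⟩
        have hCeq : C = {(l.1, l.2)} := by
          ext l'
          rw [Finset.mem_singleton]
          constructor
          · intro h
            have e1 := hall l' h
            have e2 : α l'.1 ≠ l'.2 := fun h' => hCs ⟨l', h, h'⟩
            rw [e1] at e2
            ext
            · exact congrArg Fin.val e1
            · cases h3 : α l.1 <;> cases h4 : l.2 <;> cases h5 : l'.2 <;> simp_all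
          · rintro rfl
            exact hl
        cases h2 : l.2
        · rw [h2] at hCeq hne
          have h3 : α l.1 = true := by simpa using hne
          have h4 : ({(l.1, true)} : Finset (Fin n × Bool)) ∈ F := by simpa [α] using h3
          exact hP l.1 h4 (hCeq ▸ hC)
        · rw [h2] at hCeq hne
          apply hne
          have : ({(l.1, true)} : Finset (Fin n × Bool)) ∈ F := hCeq ▸ hC
          simpa [α] using this
  obtain ⟨l, hl, _⟩ := hal L le_rfl ∅ h1
  simp at hl

/-- There is a natural C such that for every n ≥ 2 and every unsatisfiable CNF on n variables, if F has a configurational resolution refutation of variable space ≤ s, then F has a resolution refutation of depth ≤ (s·log₂ n)^C. -/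
theorem result :
    ∃ C : ℕ, ∀ n : ℕ, 2 ≤ n → ∀ F : Finset (Finset (Fin n × Bool)),
      (¬ ∃ σ : Fin n → Bool, ∀ c ∈ F, ∃ l ∈ c, σ l.1 = l.2) →
      ∀ s : ℕ,
        (∃ L : ℕ, ∃ M : ℕ → Finset (Finset (Fin n × Bool)),
          M 0 = ∅ ∧ (∅ : Finset (Fin n × Bool)) ∈ M L ∧
          (∀ i < L,
            (∃ c ∈ F, M (i + 1) = insert c (M i)) ∨
            (∃ c ∈ M i, M (i + 1) = (M i).erase c) ∨
            (∃ a ∈ M i, ∃ b ∈ M i, ∃ x : Fin n, (x, true) ∈ a ∧ (x, false) ∈ b ∧
              M (i + 1) = insert (a.erase (x, true) ∪ b.erase (x, false)) (M i))) ∧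
          (∀ i ≤ L, ((M i).biUnion (fun c => c.image Prod.fst)).card ≤ s)) →
        (∅ : Finset (Fin n × Bool)) ∈
          (fun S : Set (Finset (Fin n × Bool)) =>
            S ∪ {c | ∃ a ∈ S, ∃ b ∈ S, ∃ x : Fin n, (x, true) ∈ a ∧ (x, false) ∈ b ∧
              c = a.erase (x, true) ∪ b.erase (x, false)})^[⌊((s : ℝ) * Real.logb 2 (n : ℝ)) ^ C⌋₊]
            (F : Set (Finset (Fin n × Bool))) := by
  refine ⟨7, ?_⟩
  intro n hn F _ s ⟨L, M, h0, h1, hstep, hs⟩
  have hn' : (2 : ℝ) ≤ n := by exact_mod_cast hn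
  have hlog1 : 1 ≤ Real.logb 2 (n : ℝ) := by
    rw [Real.le_logb_iff_rpow_le (by norm_num) (by linarith)]
    simpa using hn'
  have hvars : ∀ i, Pool.Agent.H561R2.VS.vars (M i) =
      (M i).biUnion (fun c => c.image Prod.fst) := by
    intro i
    unfold Pool.Agent.H561R2.VS.vars
    ext x
    simp only [Finset.mem_image, Finset.mem_biUnion, id]
    constructor
    · rintro ⟨l, ⟨c, hc, hl⟩, rfl⟩
      exact ⟨c, hc, l, hl, rfl⟩
    · rintro ⟨c, hc, l, hl, rfl⟩
      exact ⟨l, ⟨c, hc, hl⟩, rfl⟩
  rw [iter_eq]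
  rcases Nat.lt_or_ge s 2 with hs2 | hs2
  · rcases Nat.eq_zero_or_pos s with rfl | hs1
    · -- no variables at all
      have key := Pool.Agent.L0h82.VS.depth_le (k := 1) h0 h1 hstep
        (fun i hi => by rw [hvars]; exact hs i hi) (by norm_num)
      refine Pool.Agent.H561R2.VS.lev_mono F (Nat.zero_le _) ?_
      simpa using key
    · have hs1' : s = 1 := by omega
      subst hs1'
      have key := one_var F L M h0 h1 hstep hs
      refine Pool.Agent.H561R2.VS.lev_mono F ?_ key
      rw [Nat.le_floor_iff (by positivity)]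
      have : (1 : ℝ) ≤ ((1 : ℕ) : ℝ) * Real.logb 2 (n : ℝ) := by simpa using hlog1
      simpa using one_le_pow₀ (n := 7) this
  · -- at least two variables
    set l := Nat.log 2 n with hl
    have hk : (2 * n + 1) ^ s < 2 ^ ((l + 2) * s) := by
      rw [pow_mul]
      apply Nat.pow_lt_pow_left _ (by omega)
      have h3 : n < 2 ^ (l + 1) := Nat.lt_pow_succ_log_self (by norm_num) n
      have h4 : 2 ^ (l + 2) = 2 * 2 ^ (l + 1) := by rw [pow_succ]; ring
      omega
    have key := Pool.Agent.L0h82.VS.depth_le h0 h1 hstep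
      (fun i hi => by rw [hvars]; exact hs i hi) hk
    refine Pool.Agent.H561R2.VS.lev_mono F ?_ key
    rw [Nat.le_floor_iff (by positivity)]
    push_cast
    have hll : (l : ℝ) ≤ Real.logb 2 (n : ℝ) := by
      rw [Real.le_logb_iff_rpow_le (by norm_num) (by linarith), Real.rpow_natCast]
      have := Nat.pow_log_le_self 2 (show n ≠ 0 by omega)
      exact_mod_cast this
    have hsr : (2 : ℝ) ≤ s := by exact_mod_cast hs2
    set g := Real.logb 2 (n : ℝ) with hg
    have h5 : ((l : ℝ) + 2) * s ≤ 3 * (s * g) := by nlinarith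
    have h6 : (2 : ℝ) ≤ s * g := by nlinarith
    have h7 : (s : ℝ) ≤ s * g := by nlinarith
    set x := (s : ℝ) * g with hx
    have h8 : ((l : ℝ) + 2) * s * (((l : ℝ) + 2) * s * s) ≤ 9 * x ^ 3 := by
      have h9 : 0 ≤ ((l : ℝ) + 2) * s := by positivity
      calc ((l : ℝ) + 2) * s * (((l : ℝ) + 2) * s * s) ≤ (3 * x) * ((3 * x) * x) := by
            apply mul_le_mul h5 _ (by positivity) (by positivity)
            exact mul_le_mul h5 h7 (by positivity) (by positivity)
        _ = 9 * x ^ 3 := by ring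
    have h10 : (s : ℝ) ≤ x ^ 3 := by
      calc (s : ℝ) ≤ x := h7
        _ = x ^ 1 := (pow_one x).symm
        _ ≤ x ^ 3 := pow_le_pow_right₀ (by linarith) (by norm_num)
    have h11 : (16 : ℝ) ≤ x ^ 4 := by
      have := pow_le_pow_left₀ (by norm_num) h6 4
      norm_num at this
      exact this
    have h12 : (0 : ℝ) ≤ x ^ 3 := by positivity
    calc (s : ℝ) + ((l : ℝ) + 2) * s * (((l : ℝ) + 2) * s * s) ≤ x ^ 3 + 9 * x ^ 3 := by linarith
      _ ≤ x ^ 3 * x ^ 4 := by nlinarith
      _ = x ^ 7 := by ring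

end Pool.Agent.S14311
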