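import Pool.Statements.S15369
import Pool.Agent.L0h36.TR.Account
import Pool.Agent.L0h36.TR.Count
import Pool.Agent.L0h36.TR.Exist
import Pool.Agent.L0h36.TR.Final
import Pool.Agent.L0h36.TR.Hall
import Pool.Agent.L0h36.TR.Init
import Pool.Agent.L0h36.TR.Mgf
import Pool.Agent.L0h36.TR.Num
import Pool.Agent.L0h36.TR.Persist
import Pool.Agent.L0h36.TR.Pot
import Pool.Agent.L0h36.TR.Step
import Pool.Agent.L0h36.TR.Tree
import Pool.Agent.L0h36.TR.TypeI
import Pool.Agent.L0h36.TR.TypeII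

set_option autoImplicit false
open Pool Pool.MP_ce949a_lc

namespace Pool.Agent.S15369

/-- There is c>0 such that for every k and all large n some unsatisfiable CNF on n variables with clauses of width at most k has every tree-like resolution refutation of size at least 2^((1-c/k)n). -/
theorem result :
    ∃ c : ℝ, 0 < c ∧ ∀ k : ℕ, 1 ≤ k → ∃ N : ℕ, ∀ n : ℕ, N ≤ n →
      ∃ F : Finset (Finset (Fin n × Bool)),
        (∀ C ∈ F, C.card ≤ k) ∧
        (∀ α : Fin n → Bool, ∃ C ∈ F, ∀ l ∈ C, α l.1 ≠ l.2) ∧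
        ∀ s : ℕ,
          (∀ P : Finset (Fin n × Bool) → ℕ → Prop,
            (∀ C ∈ F, P C 1) →
            (∀ (C D : Finset (Fin n × Bool)) (x : Fin n) (a b : ℕ),
              P C a → P D b → (x, true) ∈ C → (x, false) ∈ D →
              P (C.erase (x, true) ∪ D.erase (x, false)) (a + b + 1)) →
            P ∅ s) →
          (1 - c / (k : ℝ)) * (n : ℝ) ≤ Real.logb 2 (s : ℝ) := by
  have hcount := Pool.Agent.L0h36.TR.count
    (Pool.Agent.L0h36.TR.typeI Pool.Agent.L0h36.TR.Hcard Pool.Agent.L0h36.TR.T_spec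
      Pool.Agent.L0h36.TR.EH)
    (Pool.Agent.L0h36.TR.typeII_hi Pool.Agent.L0h36.TR.persist Pool.Agent.L0h36.TR.T_spec)
    (Pool.Agent.L0h36.TR.typeII_lo Pool.Agent.L0h36.TR.persist Pool.Agent.L0h36.TR.T_spec
      Pool.Agent.L0h36.TR.Hcard)
  have htree := Pool.Agent.L0h36.TR.s_tree Pool.Agent.L0h36.TR.inv_all
    Pool.Agent.L0h36.TR.choice hcount Pool.Agent.L0h36.TR.account
    Pool.Agent.L0h36.TR.bad_nonneg Pool.Agent.L0h36.TR.bad_PR
    Pool.Agent.L0h36.TR.bad_fair Pool.Agent.L0h36.TR.bad_com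
  exact Pool.Agent.L0h36.TR.s_final Pool.Agent.L0h36.TR.s_init
    (Pool.Agent.L0h36.TR.exist Pool.Agent.L0h36.TR.s_mgf) Pool.Agent.L0h36.TR.num htree

end Pool.Agent.S15369
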