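import Pool.Statements.S17475
import Pool.Agent.L0h73.CN.Main

/-!
Proof. Following Alford, Granville and Pomerance we construct Carmichael numbers, but such that all
their prime factors exceed `X` and their number is at most `exp (o (log X))`; then `F(n) = φ(n)` is
at least `(1 - o(1)) n`.

Let `t` be large. A positive proportion of the primes `q ≤ t` is such that all prime factors of
`q - 1` are at most `t ^ (1 - κ)` (a sieve bound). Let `Q` be the set of these primes (perhaps without
one of them), `L` their product, `X = 2 ^ v` with `v = t ^ (1 - κ / 2)`. By a Linnik type lower bound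
for primes in residue classes, valid for all moduli `≤ X ^ (1/16)` which are not multiples of one
exceptional modulus, the primes `p ≡ 1 (mod d)`, `X < p ≤ X ^ K` have `∑ 1 / p ≥ c / φ(d)` for all
products `d` of `u` primes from `Q`. Hence there are a cofactor `M` and `L' ∣ L` prime to `M` such that at
least `2 ^ u / t ^ 3` primes `p` in `(X, X ^ K]` satisfy `M ∣ p - 1 ∣ M L'`. Since `a ^ m = 1` for all
`a` in `(ℤ / L')ˣ`, where `m` is at most `exp (t ^ (1 - κ + o(1)))`, any `m t ^ 2` of these primes
contain a nonempty subset with product `1` modulo `L'`; the product is a Carmichael number.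
-/

set_option autoImplicit false
open Pool Pool.MP_773b62_nt

namespace Pool.Agent.S17475

/-- For every ε>0 there are arbitrarily large composite n such that the number of residues a mod n with a^(n-1) ≡ 1 mod n exceeds (1-ε)n, i.e. the limsup over composites of F(n)/n equals 1. -/
theorem result :
    ∀ ε : ℝ, 0 < ε → ∀ N : ℕ, ∃ n : ℕ, N < n ∧ 1 < n ∧ ¬ Nat.Prime n ∧
      (1 - ε) * (n : ℝ) <
        (((Finset.range n).filter (fun a => a ^ (n - 1) ≡ 1 [MOD n])).card : ℝ) := by
  intro ε hε N
  obtain ⟨n, h1, h2, h3, h4⟩ := Pool.Agent.L0h73.CN.main ε hε N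
  exact ⟨n, h1, h2, h3, h4⟩

end Pool.Agent.S17475
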